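import Pool.Agent.Helper27.HY.Stm2

/-!
# Restriction of the hyperplane condition, and the strict condition
-/

set_option autoImplicit false

open scoped BigOperators

namespace Pool.Agent.Helper32.HY

open Pool.Agent.Helper27.HY

/-- the extension by zero along `ι` -/
def ext {J J' : Type} [Fintype J'] [DecidableEq J] (ι : J' → J) (h : J' → J' → ℝ) (a b : J) : ℝ :=
  ∑ a', ∑ b', (if ι a' = a then 1 else 0) * (if ι b' = b then 1 else 0) * h a' b'

lemma ext_symm {J J' : Type} [Fintype J'] [DecidableEq J] (ι : J' → J) {h : J' → J' → ℝ}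
    (hs : ∀ a b, h a b = h b a) (a b : J) : ext ι h a b = ext ι h b a := by
  unfold ext
  rw [Finset.sum_comm]
  refine Finset.sum_congr rfl fun b' _ => Finset.sum_congr rfl fun a' _ => ?_
  rw [hs a' b']
  ring

lemma ext_sum {J J' : Type} [Fintype J] [Fintype J'] [DecidableEq J] (ι : J' → J)
    (h : J' → J' → ℝ) (g : J → J → ℝ) :
    ∑ a, ∑ b, g a b * ext ι h a b = ∑ a', ∑ b', g (ι a') (ι b') * h a' b' := by
  have e1 : ∀ a b, g a b * ext ι h a b = ∑ a', ∑ b', g a b *
      ((if ι a' = a then 1 else 0) * (if ι b' = b then 1 else 0) * h a' b') := by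
    intro a b
    unfold ext
    rw [Finset.mul_sum]
    exact Finset.sum_congr rfl fun a' _ => by rw [Finset.mul_sum]
  simp only [e1]
  have e2 : ∀ a, ∑ b, ∑ a', ∑ b', g a b *
      ((if ι a' = a then 1 else 0) * (if ι b' = b then 1 else 0) * h a' b') =
      ∑ a', ∑ b', (if ι a' = a then 1 else 0) * (g a (ι b') * h a' b') := by
    intro a
    rw [Finset.sum_comm]
    refine Finset.sum_congr rfl fun a' _ => ?_
    rw [Finset.sum_comm]
    refine Finset.sum_congr rfl fun b' _ => ?_
    rw [Finset.sum_eq_single (ι b')]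
    · simp
    · intro b _ hb
      simp [Ne.symm hb]
    · simp
  simp only [e2]
  rw [Finset.sum_comm]
  refine Finset.sum_congr rfl fun a' _ => ?_
  rw [Finset.sum_comm]
  refine Finset.sum_congr rfl fun b' _ => ?_
  rw [Finset.sum_eq_single (ι a')]
  · simp
  · intro a _ ha
    simp [Ne.symm ha]
  · simp

lemma ext_Bq {J J' : Type} [Fintype J] [Fintype J'] [DecidableEq J] (ι : J' → J)
    (h : J' → J' → ℝ) (R : J → J → J → J → ℝ) :
    Bq R (ext ι h) = Bq (fun a b c d => R (ι a) (ι b) (ι c) (ι d)) h := by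
  have e1 : Bq R (ext ι h) = ∑ i, ∑ j, (∑ k, ∑ l, R i k j l * ext ι h k l) * ext ι h i j := by
    unfold Bq
    refine Finset.sum_congr rfl fun i _ => Finset.sum_congr rfl fun j _ => ?_
    rw [Finset.sum_mul]
    refine Finset.sum_congr rfl fun k _ => ?_
    rw [Finset.sum_mul]
    exact Finset.sum_congr rfl fun l _ => by ring
  have e2 : ∀ i j, ∑ k, ∑ l, R i k j l * ext ι h k l =
      ∑ k', ∑ l', R i (ι k') j (ι l') * h k' l' := fun i j =>
    ext_sum ι h fun k l => R i k j l
  rw [e1]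
  simp only [e2]
  rw [ext_sum ι h fun i j => ∑ k', ∑ l', R i (ι k') j (ι l') * h k' l']
  unfold Bq
  refine Finset.sum_congr rfl fun i _ => Finset.sum_congr rfl fun j _ => ?_
  rw [Finset.sum_mul]
  refine Finset.sum_congr rfl fun k _ => ?_
  rw [Finset.sum_mul]
  exact Finset.sum_congr rfl fun l _ => by ring

theorem restr : RestrStm := by
  intro J J' _ _ _ _ ι _ R hR
  obtain ⟨N, hN⟩ := hR
  refine ⟨fun a b => N (ι a) (ι b), fun h hs h0 => ?_⟩
  rw [← ext_Bq]
  refine hN _ (ext_symm ι hs) ?_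
  rw [ext_sum]
  exact h0

lemma Bq_smul {J : Type} [Fintype J] (R : J → J → J → J → ℝ) (t : ℝ) (h : J → J → ℝ) :
    Bq R (fun a b => t * h a b) = t ^ 2 * Bq R h := by
  unfold Bq
  simp only [Finset.mul_sum]
  refine Finset.sum_congr rfl fun i _ => Finset.sum_congr rfl fun j _ =>
    Finset.sum_congr rfl fun k _ => Finset.sum_congr rfl fun l _ => by ring

lemma exists_kappa {J : Type} [Fintype J] (R : J → J → J → J → ℝ) (N : J → J → ℝ)
    (hN : ∀ h : J → J → ℝ, (∀ a b, h a b = h b a) → ∑ i, ∑ j, N i j * h i j = 0 →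
      h ≠ 0 → Bq R h < 0) :
    ∃ κ : ℝ, 0 < κ ∧ ∀ h : J → J → ℝ, (∀ a b, h a b = h b a) → ∑ i, ∑ j, N i j * h i j = 0 →
      Bq R h ≤ -(κ * ∑ i, ∑ j, h i j ^ 2) := by
  obtain ⟨K, hK⟩ : ∃ K : Set (J → J → ℝ), K = {h | (∀ a b, h a b = h b a) ∧
    ∑ i, ∑ j, N i j * h i j = 0 ∧ ∑ i, ∑ j, h i j ^ 2 = 1} := ⟨_, rfl⟩
  have cB : Continuous (Bq R) := by
    unfold Bq
    fun_prop
  have cl : IsClosed K := by
    have e : K = (⋂ a, ⋂ b, {h : J → J → ℝ | h a b = h b a}) ∩
        ({h | ∑ i, ∑ j, N i j * h i j = 0} ∩ {h | ∑ i, ∑ j, h i j ^ 2 = 1}) := by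
      rw [hK]
      ext h
      simp
    rw [e]
    refine (isClosed_iInter fun a => isClosed_iInter fun b =>
      isClosed_eq (by fun_prop) (by fun_prop)).inter ((isClosed_eq (by fun_prop)
        continuous_const).inter (isClosed_eq (by fun_prop) continuous_const))
  have bd : K ⊆ Metric.closedBall 0 1 := by
    intro h hh
    rw [hK] at hh
    rw [mem_closedBall_zero_iff, pi_norm_le_iff_of_nonneg zero_le_one]
    intro a
    rw [pi_norm_le_iff_of_nonneg zero_le_one]
    intro b
    have h1 : h a b ^ 2 ≤ 1 := by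
      rw [← hh.2.2]
      calc h a b ^ 2 ≤ ∑ j, h a j ^ 2 :=
            Finset.single_le_sum (f := fun j => h a j ^ 2) (fun j _ => sq_nonneg _)
              (Finset.mem_univ b)
        _ ≤ ∑ i, ∑ j, h i j ^ 2 :=
            Finset.single_le_sum (f := fun i => ∑ j, h i j ^ 2)
              (fun i _ => Finset.sum_nonneg fun j _ => sq_nonneg _) (Finset.mem_univ a)
    rw [Real.norm_eq_abs]
    exact (sq_le_one_iff_abs_le_one _).1 h1
  have cK : IsCompact K := (isCompact_closedBall 0 1).of_isClosed_subset cl bd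
  have key : ∃ κ : ℝ, 0 < κ ∧ ∀ h ∈ K, Bq R h ≤ -κ := by
    rcases K.eq_empty_or_nonempty with hE | hE
    · exact ⟨1, one_pos, fun h hh => by rw [hE] at hh; exact absurd hh (Set.notMem_empty h)⟩
    · obtain ⟨g, hg, hmax⟩ := cK.exists_isMaxOn hE cB.continuousOn
      have hg' := hg
      rw [hK] at hg'
      have g0 : g ≠ 0 := by
        rintro rfl
        have := hg'.2.2
        simp at this
      refine ⟨-Bq R g, by have := hN g hg'.1 hg'.2.1 g0; linarith, fun h hh => ?_⟩
      have h3 : Bq R h ≤ Bq R g := hmax hh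
      linarith
  obtain ⟨κ, κ0, hκ⟩ := key
  refine ⟨κ, κ0, fun h hs h0 => ?_⟩
  obtain ⟨Q, hQ⟩ : ∃ Q, Q = ∑ i, ∑ j, h i j ^ 2 := ⟨_, rfl⟩
  have Q0 : 0 ≤ Q := by
    rw [hQ]; exact Finset.sum_nonneg fun i _ => Finset.sum_nonneg fun j _ => sq_nonneg _
  rw [← hQ]
  rcases Q0.eq_or_lt with hz | hpos
  · have hz2 : h = 0 := by
      have h1 := (Finset.sum_eq_zero_iff_of_nonneg (s := Finset.univ)
        (f := fun i => ∑ j, h i j ^ 2) (fun i _ => Finset.sum_nonneg fun j _ => sq_nonneg _)).1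
        (by rw [← hQ, ← hz])
      funext a b
      have h2 := (Finset.sum_eq_zero_iff_of_nonneg (s := Finset.univ)
        (f := fun j => h a j ^ 2) (fun j _ => sq_nonneg _)).1 (h1 a (Finset.mem_univ a)) b
        (Finset.mem_univ b)
      exact pow_eq_zero_iff (two_ne_zero) |>.1 h2
    rw [← hz, mul_zero, neg_zero, hz2]
    unfold Bq
    simp
  · obtain ⟨t, ht⟩ : ∃ t, t = (√Q)⁻¹ := ⟨_, rfl⟩
    have sQ : 0 < √Q := Real.sqrt_pos.2 hpos
    have t2 : t ^ 2 * Q = 1 := by
      rw [ht, inv_pow, Real.sq_sqrt hpos.le]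
      field_simp
    have hm : (fun a b => t * h a b) ∈ K := by
      rw [hK]
      refine ⟨fun a b => by show t * h a b = t * h b a; rw [hs a b], ?_, ?_⟩
      · have : ∀ i j, N i j * (t * h i j) = t * (N i j * h i j) := fun i j => by ring
        simp only [this, ← Finset.mul_sum]
        rw [h0, mul_zero]
      · have : ∀ i j, (t * h i j) ^ 2 = t ^ 2 * h i j ^ 2 := fun i j => by ring
        simp only [this, ← Finset.mul_sum]
        rw [← hQ, t2]
    have h1 := hκ _ hm
    rw [Bq_smul] at h1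
    have h2 := mul_le_mul_of_nonneg_left h1 hpos.le
    have e : Q * (t ^ 2 * Bq R h) = Bq R h := by
      rw [← mul_assoc, mul_comm Q, t2, one_mul]
    rw [e] at h2
    linarith

lemma Bq_Kc {J : Type} [Fintype J] [DecidableEq J] {h : J → J → ℝ} (hs : ∀ a b, h a b = h b a) :
    Bq (Kc : J → J → J → J → ℝ) h = (∑ i, h i i) ^ 2 - ∑ i, ∑ j, h i j ^ 2 := by
  have e1 : ∀ i j k l : J, (Kc i k j l : ℝ) * (h i j * h k l) =
      ((if i = j then 1 else 0) * h i j) * ((if k = l then 1 else 0) * h k l) -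
      ((if i = l then 1 else 0) * (if k = j then 1 else 0)) * (h i j * h k l) := by
    intro i j k l
    unfold Kc
    ring
  unfold Bq
  simp only [e1, Finset.sum_sub_distrib]
  congr 1
  · have e2 : ∀ i j : J, ∑ k, ∑ l, ((if i = j then 1 else 0) * h i j) *
        ((if k = l then 1 else 0) * h k l) =
        ((if i = j then 1 else 0) * h i j) * ∑ k, h k k := by
      intro i j
      rw [Finset.mul_sum]
      refine Finset.sum_congr rfl fun k _ => ?_
      rw [← Finset.mul_sum]
      congr 1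
      simp
    simp only [e2, ← Finset.sum_mul]
    rw [pow_two]
    congr 1
    refine Finset.sum_congr rfl fun i _ => ?_
    simp
  · refine Finset.sum_congr rfl fun i _ => Finset.sum_congr rfl fun j _ => ?_
    rw [Finset.sum_eq_single j, Finset.sum_eq_single i]
    · simp [hs j i, pow_two]
    · intro l _ hl
      simp [Ne.symm hl]
    · simp
    · intro k _ hk
      simp [hk]
    · simp

theorem strict : StrictStm := by
  intro J _ _ R hR
  obtain ⟨N, hN⟩ := hR
  obtain ⟨κ, κ0, hκ⟩ := exists_kappa R N hN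
  refine ⟨κ, κ0, N, fun h hs h0 => ?_⟩
  have h1 := hκ h hs h0
  have h2 := Bq_Kc hs
  have e : Bq (fun a b c d => R a b c d - κ * Kc a b c d) h =
      Bq R h - κ * Bq (Kc : J → J → J → J → ℝ) h := by
    unfold Bq
    simp only [Finset.mul_sum, ← Finset.sum_sub_distrib]
    refine Finset.sum_congr rfl fun i _ => Finset.sum_congr rfl fun j _ =>
      Finset.sum_congr rfl fun k _ => Finset.sum_congr rfl fun l _ => by ring
  rw [e, h2]
  nlinarith [mul_nonneg κ0.le (sq_nonneg (∑ i, h i i))]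

end Pool.Agent.Helper32.HY
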